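import Pool.Agent.TH377.HB.Comp
import Pool.Agent.TH377.Hyp.Dens
import Pool.Agent.TH377.Dyn.Box

/-!
# MP_1ad228_nt: zero-cycles on hypersurfaces over completions

Let `K` be a number field, `d ≥ 2`, `k ≥ 1` and `r ≥ 1`, `b ∈ O_K`, and let `g_0, …, g_{k-1}` be
polynomials of degree `d` over `O_K`.  In the projective space of dimension `k (r + 1) - 1` with the
homogeneous coordinates `x_{ji}` (`0 ≤ j < k`, `0 ≤ i ≤ r`) we consider the hypersurfaces of degree `d`

  `X : ∑_j b^j Res(g_j, x_{j0} + x_{j1} T + … + x_{jr} T^r) + G = 0`,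

where `G` is ANY form of degree `d` over `O_K` whose coefficient at a monomial of weight `w` (the
variables `x_{ji}` have weight `j`) is divisible by `b^(⌊w/d⌋ + 1)`.  Here `Res(g_j, ·)` is, up to a
factor, the norm form `N(x_{j0} + x_{j1} θ + … + x_{jr} θ^r)` of the extension `K(θ)` of degree `d`
generated by a root `θ` of `g_j`, restricted to the span of `1, θ, …, θ^r`.  For `k = 1` these are the
hypersurfaces `N(x_0 + x_1 θ + … + x_r θ^r) + b H(x_0, …, x_r) = 0` with an arbitrary form `H` of
degree `d`.  If `b ≠ 0`, the allowed forms `G` form a lattice of full rank in the vector space of all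
forms of degree `d`, so `X` is smooth for most of them.  The dimension `k (r + 1) - 2` and the degree
are arbitrary: one gets curves (`k = 1`, `r = 2`), cubic surfaces (`d = 3`, `k = 2`, `r = 1`), quartic
K3 surfaces (`d = 4`, `k = 1`, `r = 3` or `k = 2`, `r = 1`), hypersurfaces of general type and Fano
hypersurfaces (`k (r + 1) > d`; for a prime number `d` all `k ≤ d` and `r < d` are possible below).

We prove: for 100% of the vectors `(b, g_0, …, g_{k-1})` there is a prime `v` of `K` such that for ALL
allowed `G`, all prime numbers `l` and all `a ≥ 0` with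

  `max(k, r + 1) lᵃ ≤ l^{v_l(d)}`

the degrees of all zero-cycles on `X` over the completion `K_v` are divisible by `l^(a + 1)`.  So if
`max(k, r + 1) ≤ l^{v_l(d)}` for one prime number `l` (for instance, if `d` is a power of a prime
number and `k, r + 1 ≤ d`), then `X` has no zero-cycle of degree one over `K_v`.  Then there is no
family of local zero-cycles of degree one, and the assertion of Q1 holds for all these `X` (and for all
varieties that have a morphism to one of these `X`), for a trivial reason, but for all smooth `X` of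
these families and 100% of `(b, g_j)`; the exceptional set of vectors does not depend on `G`.  It has
density zero in boxes (with respect to any integral basis), and in a stronger sense: for every `ε > 0`
there is an ideal `I ≠ 0` such that the exceptional vectors lie in at most `ε #(O_K/I)^(k(d+1)+1)`
classes modulo `I`.

Proof.  Let `v` be a prime of `K` that divides `b` exactly once, such that all `g_j` are irreducible of
degree `d` modulo `v`.  Let `M` be a finite extension of `K_v` with ramification index `e` and residue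
degree `f`, such that `l^(a + 1)` does not divide `[M : K_v] = e f`.  Over the residue field of `M` the
irreducible factors of `g_j` have degrees divisible by `l^{v_l(d) - v_l(f)} > r`, so the resultant
`Res(g_j, ·)` has no nontrivial zeros over it, and the value of `Res(g_j, y)` is `d` times the smallest
value of the coordinates of `y`.  So the values of the terms `b^j Res(g_j, ·)` at a vector with
coordinates in `M` are congruent to `j e` modulo `d`, and these are different for different `j < k`.
By the weights, the value of `G` is larger than the smallest of these values.  So the sum is not zero,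
and `X` has no point over `M`.  The prime `v` exists for almost all vectors, because the conditions hold
for a proportion of at least `(4d)^(-k) (1/N v - 1/(N v)²)` of all vectors modulo `v²`, and the sum of
the `1/N v` diverges.
-/

set_option autoImplicit false
set_option maxHeartbeats 400000

open NumberField Filter Topology IsDedekindDomain

namespace Pool.Agent.Results.MP_1ad228_nt.HypersurfaceIndex

universe u w

/-- The coefficient of `Tⁱ` in `g_j`: the entry number `1 + j (d + 1) + i` of the vector `c`.  The
entry number `0` is `b`. -/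
def coef {R : Type u} {k d : ℕ} (c : Fin (k * (d + 1) + 1) → R) (j : Fin k) (i : Fin (d + 1)) : R :=
  c (finProdFinEquiv (j, i)).succ

/-- The polynomial `g_j`. -/
noncomputable def poly {R : Type u} [CommRing R] {k d : ℕ} (c : Fin (k * (d + 1) + 1) → R)
    (j : Fin k) : Polynomial R :=
  ∑ i : Fin (d + 1), Polynomial.C (coef c j i) * Polynomial.X ^ (i : ℕ)

/-- The polynomial `x_{j0} + x_{j1} T + … + x_{jr} T^r`, whose coefficients are variables. -/
noncomputable def generic (R : Type u) [CommRing R] (k r : ℕ) (j : Fin k) :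
    Polynomial (MvPolynomial (Fin k × Fin (r + 1)) R) :=
  ∑ i : Fin (r + 1), Polynomial.monomial (i : ℕ) (MvPolynomial.X (j, i))

/-- The form `∑_j b^j Res(g_j, x_{j0} + x_{j1} T + … + x_{jr} T^r) + G` (resultants of polynomials of
the formal degrees `d` and `r`). -/
noncomputable def form {R : Type u} [CommRing R] {k d : ℕ} (r : ℕ)
    (c : Fin (k * (d + 1) + 1) → R) (G : MvPolynomial (Fin k × Fin (r + 1)) R) :
    MvPolynomial (Fin k × Fin (r + 1)) R :=
  ∑ j : Fin k, MvPolynomial.C (c 0 ^ (j : ℕ)) *
    Polynomial.resultant ((poly c j).map MvPolynomial.C) (generic R k r j) d r + G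

/-- The weight of a monomial: the variables `x_{ji}` have weight `j`. -/
def weight {k r : ℕ} (α : Fin k × Fin (r + 1) →₀ ℕ) : ℕ := ∑ p, (p.1 : ℕ) * α p

/-- `G` is a form of degree `d` whose coefficient at every monomial of weight `w` is divisible by
`b^(⌊w/d⌋ + 1)`. -/
def Allowed {R : Type u} [CommRing R] (k r d : ℕ) (b : R)
    (G : MvPolynomial (Fin k × Fin (r + 1)) R) : Prop :=
  G.IsHomogeneous d ∧ ∀ α, b ^ (weight α / d + 1) ∣ G.coeff α

/-- `n` is the degree of a zero-cycle on the projective hypersurface `F = 0` over the field `κ`: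
there are finitely many finite extensions `M_i` of `κ`, points of the hypersurface over the `M_i` and
integers `m_i` such that `n = ∑ m_i [M_i : κ]`.  (A point over `M_i` gives a closed point whose degree
divides `[M_i : κ]`, and a closed point gives a point over its residue field, so these are the degrees
of the zero-cycles.) -/
def IsCycleDegree {ι : Type} {κ : Type u} [Field κ] (F : MvPolynomial ι κ) (n : ℤ) : Prop :=
  ∃ (N : ℕ) (M : Fin N → IntermediateField κ (AlgebraicClosure κ)) (m : Fin N → ℤ),
    (∀ i, FiniteDimensional κ (M i)) ∧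
    (∀ i, ∃ x : ι → M i, x ≠ 0 ∧ MvPolynomial.aeval x F = 0) ∧
    n = ∑ i, m i * (Module.finrank κ (M i) : ℤ)

/-- The vectors `c = (b, g_0, …, g_{k-1})` that do not have the following property: `b ≠ 0`, and there
is a prime `v` of `K` such that for all allowed `G` and all prime numbers `l` and `a ≥ 0` with
`max(k, r + 1) lᵃ ≤ l^{v_l(d)}` the degrees of the zero-cycles over `K_v` on the hypersurface are
divisible by `l^(a + 1)`. -/
def Exceptional (K : Type u) [Field K] [NumberField K] (k r d : ℕ) :
    Set (Fin (k * (d + 1) + 1) → 𝓞 K) :=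
  {c | ¬ (c 0 ≠ 0 ∧ ∃ v : HeightOneSpectrum (𝓞 K),
    ∀ G : MvPolynomial (Fin k × Fin (r + 1)) (𝓞 K), Allowed k r d (c 0) G →
      ∀ l a : ℕ, l.Prime → max k (r + 1) * l ^ a ≤ l ^ padicValNat l d →
        ∀ n : ℤ, IsCycleDegree (MvPolynomial.map (algebraMap (𝓞 K) (v.adicCompletion K))
          (form r c G)) n → (l : ℤ) ^ (a + 1) ∣ n)}

/-- Density zero: for every `ε > 0` there is an ideal `I ≠ 0` such that `E` lies in at most
`ε #(O_K/I)ᴺ` residue classes modulo `I`. -/
def DensityZero {K : Type u} [Field K] {N : ℕ} (E : Set (Fin N → 𝓞 K)) : Prop :=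
  ∀ ε : ℝ, 0 < ε → ∃ I : Ideal (𝓞 K), I ≠ ⊥ ∧
    (Set.ncard ((fun (t : Fin N → 𝓞 K) i => Ideal.Quotient.mk I (t i)) '' E) : ℝ) ≤
      ε * (Nat.card (𝓞 K ⧸ I) : ℝ) ^ N

/-- The vectors all of whose entries have coordinates of absolute value at most `H` in the integral
basis `ω`. -/
def Box {K : Type u} [Field K] {J : Type w} (ω : Module.Basis J ℤ (𝓞 K)) (N H : ℕ) :
    Set (Fin N → 𝓞 K) :=
  {c | ∀ i j, |ω.repr (c i) j| ≤ (H : ℤ)}

section proof

open Pool.Agent.TH377.Dyn Pool.Agent.TH377.Sup Pool.Agent.TH377.Hyp Pool.Agent.TH377.HB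

lemma form_eq {R : Type u} [CommRing R] {k d : ℕ} (r : ℕ) (c : Fin (k * (d + 1) + 1) → R)
    (G : MvPolynomial (Fin k × Fin (r + 1)) R) :
    form r c G = frm d (c 0) (poly c) G := rfl

/-- the form over an extension of the completion -/
lemma form_ne_zero {K : Type u} [Field K] [NumberField K] {k r d : ℕ} (hd : 2 ≤ d)
    (c : Fin (k * (d + 1) + 1) → 𝓞 K) (v : HeightOneSpectrum (𝓞 K)) (h1 : c 0 ∈ v.asIdeal)
    (h2 : c 0 ∉ v.asIdeal ^ 2) (h3 : ∀ j, IrrMod v d fun i => coef c j i)
    (G : MvPolynomial (Fin k × Fin (r + 1)) (𝓞 K)) (hG : Allowed k r d (c 0) G) (l : ℕ)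
    (hl : l.Prime) (M : Type u) [Field M] [Algebra (v.adicCompletion K) M]
    [FiniteDimensional (v.adicCompletion K) M]
    (hM : max k (r + 1) * l ^ padicValNat l (Module.finrank (v.adicCompletion K) M) ≤
      l ^ padicValNat l d) (x : Fin k × Fin (r + 1) → M) (hx : x ≠ 0) :
    MvPolynomial.aeval x (MvPolynomial.map (algebraMap (𝓞 K) (v.adicCompletion K))
      (form r c G)) ≠ 0 := by
  have hpos : 0 < l ^ padicValNat l (Module.finrank (v.adicCompletion K) M) :=
    pow_pos hl.pos _
  have hk : k * l ^ padicValNat l (Module.finrank (v.adicCompletion K) M) ≤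
      l ^ padicValNat l d := (Nat.mul_le_mul_right _ (le_max_left _ _)).trans hM
  have hr : r * l ^ padicValNat l (Module.finrank (v.adicCompletion K) M) <
      l ^ padicValNat l d := by
    have h4 := (Nat.mul_le_mul_right (l ^ padicValNat l (Module.finrank (v.adicCompletion K) M))
      (le_max_right k (r + 1))).trans hM
    rw [add_mul, one_mul] at h4
    omega
  have hcz : CharZero (v.adicCompletion K) :=
    charZero_of_injective_algebraMap (algebraMap K (v.adicCompletion K)).injective
  set ι := algebraMap (𝓞 K) (v.adicCompletionIntegers K) with hι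
  have hirr : ∀ j, Irreducible (((poly c j).map ι).map (IsLocalRing.residue _)) := by
    intro j
    refine irr_red v _ ?_
    have h4 := (h3 j).2
    have h5 : (poly c j).map (Ideal.Quotient.mk v.asIdeal) =
        pol fun i => Ideal.Quotient.mk v.asIdeal (coef c j i) := pol_map _ _
    rw [h5]
    exact h4
  have hdeg : ∀ j, (((poly c j).map ι).map (IsLocalRing.residue _)).natDegree = d := by
    intro j
    rw [deg_red]
    have h5 : (poly c j).map (Ideal.Quotient.mk v.asIdeal) =
        pol fun i => Ideal.Quotient.mk v.asIdeal (coef c j i) := pol_map _ _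
    rw [h5]
    exact pol_natDegree _ fun h => (h3 j).1 (Ideal.Quotient.eq_zero_iff_mem.1 h)
  have hdeg' : ∀ j, ((poly c j).map ι).natDegree = d := by
    intro j
    refine le_antisymm ?_ ?_
    · exact Polynomial.natDegree_map_le.trans (pol_natDegree_le _)
    · exact (hdeg j).symm.le.trans Polynomial.natDegree_map_le
  have key := no_point (K := v.adicCompletion K) (M := M) k r d l (by omega) hl hk hr (ι (c 0))
    (irr_comp v (c 0) h1 h2) (fun j => (poly c j).map ι) hdeg' hdeg hirr
    (MvPolynomial.map ι G) (hG.1.map _) (fun α => by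
      rw [MvPolynomial.coeff_map, ← map_pow]
      exact map_dvd ι (hG.2 α)) x hx
  intro h0
  apply key
  rw [← h0, form_eq, MvPolynomial.aeval_def, MvPolynomial.eval₂_map, eval_frm, eval_frm,
    MvPolynomial.eval₂_map]
  have hc : ((algebraMap (v.adicCompletion K) M).comp
      (algebraMap (v.adicCompletionIntegers K) (v.adicCompletion K))).comp ι =
      (algebraMap (v.adicCompletion K) M).comp (algebraMap (𝓞 K) (v.adicCompletion K)) := rfl
  rw [hc]
  congr 1
  refine Finset.sum_congr rfl fun j _ => ?_
  rw [Polynomial.map_map, hc]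
  rfl

/-- the vectors with a good prime are not exceptional -/
theorem good {K : Type u} [Field K] [NumberField K] {k r d : ℕ} (hd : 2 ≤ d)
    (c : Fin (k * (d + 1) + 1) → 𝓞 K) (v : HeightOneSpectrum (𝓞 K)) (h1 : c 0 ∈ v.asIdeal)
    (h2 : c 0 ∉ v.asIdeal ^ 2) (h3 : ∀ j, IrrMod v d fun i => coef c j i) :
    c ∉ Exceptional K k r d := by
  intro hexc
  apply hexc
  refine ⟨?_, v, ?_⟩
  · intro h
    rw [h] at h2
    exact h2 (zero_mem _)
  intro G hG l a hl hla n hn
  obtain ⟨N, M, m, hM, hx, rfl⟩ := hn
  have hfact : Fact l.Prime := ⟨hl⟩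
  refine Finset.dvd_sum fun i _ => Dvd.dvd.mul_left ?_ _
  have hfin := hM i
  have hn0 : Module.finrank (v.adicCompletion K) (M i) ≠ 0 := by
    have : 0 < Module.finrank (v.adicCompletion K) (M i) := Module.finrank_pos
    exact this.ne'
  have h4 : l ^ (a + 1) ∣ Module.finrank (v.adicCompletion K) (M i) := by
    rw [padicValNat_dvd_iff_le hn0]
    by_contra h5
    obtain ⟨x, hx0, hx1⟩ := hx i
    refine form_ne_zero hd c v h1 h2 h3 G hG l hl (M i) ?_ x hx0 hx1
    refine (Nat.mul_le_mul_left _ (Nat.pow_le_pow_right hl.pos ?_)).trans hla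
    omega
  exact_mod_cast h4

end proof

/-- Let `K` be a number field, `d ≥ 2`, and `k, r ≥ 0`.  For all vectors `(b, g_0, …, g_{k-1})` over
`O_K`, where the `g_j` are polynomials of degree `d`, outside a set of density zero there is a prime
`v` of `K` such that for all allowed forms `G` and all prime numbers `l` and `a ≥ 0` with
`max(k, r + 1) lᵃ ≤ l^{v_l(d)}` the degrees of all zero-cycles over `K_v` on the hypersurface
`∑_j b^j Res(g_j, x_{j0} + x_{j1} T + … + x_{jr} T^r) + G = 0` are divisible by `l^(a + 1)`. -/
theorem result (K : Type u) [Field K] [NumberField K] (k r d : ℕ) (hd : 2 ≤ d) :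
    DensityZero (Exceptional K k r d) ∧
      ∀ (J : Type w) [Fintype J] (ω : Module.Basis J ℤ (𝓞 K)),
        Tendsto (fun H : ℕ => ((Exceptional K k r d ∩ Box ω (k * (d + 1) + 1) H).ncard : ℝ) /
          ((Box ω (k * (d + 1) + 1) H).ncard : ℝ)) atTop (𝓝 0) := by
  have key : Pool.Agent.TH120.Sec.DZ (k * (d + 1) + 1) (Exceptional K k r d) := by
    refine Pool.Agent.TH377.Dyn.DZ.mono (Pool.Agent.TH377.Hyp.dz_blocks K k d hd) ?_
    rintro c hc ⟨v, h1, h2, h3⟩
    exact good hd c v h1 h2 h3 hc
  exact ⟨key, fun J _ ω => Pool.Agent.TH377.Dyn.box_tendsto _ key ω⟩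

end Pool.Agent.Results.MP_1ad228_nt.HypersurfaceIndex
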