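import Pool.Agent.TH728.ZC.Deg
import Pool.Agent.TH728.ZC.NF
import Pool.Agent.TH377.Dyn.Box

/-!
# The degrees of the zero-cycles on 100% of all superelliptic curves

Let `K` be a number field and `d ≥ 2`.  For `(a, c₀, …, c_d) ∈ O_K^(d+2)` and `n ≥ 1` we consider the
smooth projective curve `X` with the affine equation

  `a yⁿ = f(x) = c₀ + c₁ x + … + c_d x^d`.

The zero-cycle of the zeros of `y` has degree `d`, and that of the zeros of `x` has degree `n`, so
there is a zero-cycle of degree `gcd(n, d)` on `X`.  We prove that for all vectors
`(a, c₀, …, c_d)` outside a set of density zero there is a finite place `v` of `K` such that for all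
`n` at once:

* the degrees of the zero-cycles on `X` are exactly the multiples of `gcd(n, d)`, and the same is
  true for the curve `X` over the completion `K_v`;
* every field `F ⊇ K_v` which contains a point of `X` has the property that the degree over `K_v` of
  the residue field of every valuation ring of `F` over `K_v` is divisible by `gcd(n, d)` (if it is
  finite).

So for these curves the local-global principle holds for the zero-cycles of every degree, and the
single place `v` decides.  In particular the question of the problem has a positive answer for `X`: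
if `gcd(n, d) = 1`, there is a zero-cycle of degree one over `K`; otherwise there is none over `K_v`.
The second assertion gives the same for all smooth projective varieties that dominate `X`: if `P` is a
closed point of a smooth variety `Y` over `K_v` with the function field `F`, then the residue field
of `P` is the residue field of a valuation ring of `F`.

Proof.  The prime `v` divides `a` exactly once, and `f` is irreducible of degree `d` modulo `v`
(`AtPrime`); such a `v` exists for almost all vectors by the counting of
`Pool.Agent.TH377.Dyn` and because the sum of the `1/N v` diverges.  Let `k` be `K` or `K_v`, let `L` be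
an extension of `k` of degree `m`, and let `(x, y)` be a point of `X` over `L`.  The norm of `f(x)` is a
power of the resultant of `f` and the minimal polynomial of `x`, and the value at `v` of every non-zero
resultant of `f` and a polynomial `g` over `k` is divisible by `d`: one may replace `g` by its remainder
modulo `f`, which is `c g₁` with an integral `g₁` whose reduction is not zero and hence coprime to that
of `f`.  So the norm of `a yⁿ = f(x)` gives `m + n v(N(y)) ∈ d ℤ`, and `gcd(n, d)` divides `m`.
-/

set_option autoImplicit false

open Polynomial NumberField IsDedekindDomain Filter Topology Module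

namespace Pool.Agent.Results.MP_1ad228_nt.IndexOfSuperellipticCurves

universe u v w

/-- The smooth projective curve with the affine equation `a yⁿ = f(x)` over `k` has a point over
`L ⊇ k`: a point of the affine curve, or a point at infinity, that is, a root `r` of
`a r^g = lc(f)` with `g = gcd(n, deg f)`. -/
def HasPoint {k : Type u} [Field k] (n : ℕ) (a : k) (f : k[X]) (L : Type w) [Field L]
    [Algebra k L] : Prop :=
  (∃ x y : L, algebraMap k L a * y ^ n = aeval x f) ∨
    ∃ r : L, algebraMap k L a * r ^ Nat.gcd n f.natDegree = algebraMap k L f.leadingCoeff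

/-- The degrees of the zero-cycles on the smooth projective curve with the affine equation
`a yⁿ = f(x)` over `k`: the subgroup of `ℤ` generated by the degrees `[L : k]` of the finite
extensions `L` of `k` over which the curve has a point. -/
def ZeroCycleDegrees {k : Type u} [Field k] (n : ℕ) (a : k) (f : k[X]) : AddSubgroup ℤ :=
  AddSubgroup.closure {m | ∃ (L : Type u) (_ : Field L) (_ : Algebra k L),
    FiniteDimensional k L ∧ HasPoint n a f L ∧ m = (finrank k L : ℤ)}

/-- Let `F ⊇ k` be any field that contains a point `(x, y)` with `a yⁿ = f(x)`, and let `O` be any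
valuation ring of `F` that contains `k` and whose residue field is finite over `k`.  Then its degree
over `k` is divisible by `g`. -/
def ResidueDegreesDivisible {k : Type u} [Field k] (n : ℕ) (a : k) (f : k[X]) (g : ℕ) : Prop :=
  ∀ (F : Type v) [Field F] [Algebra k F] (x y : F), algebraMap k F a * y ^ n = aeval x f →
    ∀ (O : ValuationSubring F) [Algebra k O] [IsScalarTower k O F]
      [FiniteDimensional k (IsLocalRing.ResidueField O)],
      g ∣ finrank k (IsLocalRing.ResidueField O)

/-- The polynomial `c₁ + c₂ x + … + c_{d+1} x^d` over `K`, for a vector `(c₀, …, c_{d+1})` of integers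
of `K`. -/
noncomputable def poly {K : Type u} [Field K] {d : ℕ} (c : Fin (d + 2) → 𝓞 K) : K[X] :=
  ∑ i : Fin (d + 1), C (c i.succ : K) * X ^ (i : ℕ)

/-- The vectors `c = (a, c₀, …, c_d)` of integers of `K` that do not have the following property:
`a ≠ 0`, the polynomial `f = c₀ + … + c_d x^d` is irreducible of degree `d`, and there is a finite
place `v` of `K` such that for all `n ≥ 1` the degrees of the zero-cycles on the curve `a yⁿ = f(x)`,
over `K` and also over the completion `K_v`, are exactly the multiples of `gcd(n, d)`, and the finite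
residue degrees of all valuation rings over `K_v` of all fields over `K_v` which contain a point of the
curve are divisible by `gcd(n, d)`. -/
def Exceptional (K : Type u) [Field K] [NumberField K] (d : ℕ) : Set (Fin (d + 2) → 𝓞 K) :=
  {c | ¬ ((c 0 : K) ≠ 0 ∧ (poly c).natDegree = d ∧ Irreducible (poly c) ∧
    ∃ p : HeightOneSpectrum (𝓞 K), ∀ n : ℕ, 0 < n →
      ZeroCycleDegrees n (c 0 : K) (poly c) = AddSubgroup.zmultiples ((Nat.gcd n d : ℕ) : ℤ) ∧
      ZeroCycleDegrees n (algebraMap K (p.adicCompletion K) (c 0))
          ((poly c).map (algebraMap K (p.adicCompletion K))) =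
        AddSubgroup.zmultiples ((Nat.gcd n d : ℕ) : ℤ) ∧
      ResidueDegreesDivisible.{u, v} n (algebraMap K (p.adicCompletion K) (c 0))
        ((poly c).map (algebraMap K (p.adicCompletion K))) (Nat.gcd n d))}

/-- Density zero: for every `ε > 0` there is an ideal `I ≠ 0` such that `E` lies in at most
`ε #(O_K/I)ᴺ` residue classes modulo `I`. -/
def DensityZero {K : Type u} [Field K] {N : ℕ} (E : Set (Fin N → 𝓞 K)) : Prop :=
  ∀ ε : ℝ, 0 < ε → ∃ I : Ideal (𝓞 K), I ≠ ⊥ ∧
    (Set.ncard ((fun (t : Fin N → 𝓞 K) i => Ideal.Quotient.mk I (t i)) '' E) : ℝ) ≤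
      ε * (Nat.card (𝓞 K ⧸ I) : ℝ) ^ N

/-- The vectors all of whose entries have coordinates of absolute value at most `H` in the integral
basis `ω`. -/
def Box {K : Type u} [Field K] {J : Type w} (ω : Module.Basis J ℤ (𝓞 K)) (N H : ℕ) :
    Set (Fin N → 𝓞 K) :=
  {c | ∀ i j, |ω.repr (c i) j| ≤ (H : ℤ)}

section proof

open Pool.Agent.TH728.ZC Pool.Agent.TH377.Sup

/-- the degrees over a field with the divisibility property -/
lemma degrees_eq {k : Type u} [Field k] (n : ℕ) (hn : 0 < n) (a : k) (ha : a ≠ 0) (f : k[X])
    (hf : f ≠ 0)
    (h : ∀ (L : Type u) [Field L] [Algebra k L] [FiniteDimensional k L],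
      HasPoint n a f L → Nat.gcd n f.natDegree ∣ finrank k L) :
    ZeroCycleDegrees n a f = AddSubgroup.zmultiples ((Nat.gcd n f.natDegree : ℕ) : ℤ) := by
  apply le_antisymm
  · rw [ZeroCycleDegrees, AddSubgroup.closure_le]
    rintro m ⟨L, hL1, hL2, hL3, hL4, rfl⟩
    obtain ⟨t, ht⟩ := h L hL4
    refine AddSubgroup.mem_zmultiples_iff.2 ⟨t, ?_⟩
    rw [ht, smul_eq_mul, Nat.cast_mul, mul_comm]
  · rw [AddSubgroup.zmultiples_le]
    refine gcd_mem n hn a ha f hf _ ?_
    intro L _ _ _ x y hxy
    exact AddSubgroup.subset_closure ⟨L, inferInstance, inferInstance, inferInstance,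
      Or.inl ⟨x, y, hxy⟩, rfl⟩

lemma good {K : Type u} [Field K] [NumberField K] {d : ℕ} (c : Fin (d + 2) → 𝓞 K)
    (p : HeightOneSpectrum (𝓞 K)) (hc : AtPrime p c) : c ∉ Exceptional.{u, v} K d := by
  classical
  intro hex
  apply hex
  have hlast : (c (Fin.last d).succ : K) ≠ 0 := by
    intro h0
    apply hc.2.2.1
    have h1 : c (Fin.last d).succ = 0 := by exact_mod_cast h0
    change c (Fin.last d).succ ∈ p.asIdeal
    rw [h1]
    exact zero_mem _
  have h0 : (c 0 : K) ≠ 0 := by
    intro h0
    apply hc.2.1
    have h1 : c 0 = 0 := by exact_mod_cast h0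
    rw [h1]
    exact zero_mem _
  have hdeg : (poly c).natDegree = d :=
    pol_natDegree (fun i : Fin (d + 1) => (c i.succ : K)) hlast
  have hchar : CharZero (p.adicCompletion K) :=
    charZero_of_injective_algebraMap (algebraMap K (p.adicCompletion K)).injective
  have hK := dvd_of_atPrime.{u, u, u} p c hc (RingHom.id K)
    (algebraMap K (p.adicCompletion K)) (RingHom.comp_id _)
  simp only [Polynomial.map_id, RingHom.id_apply] at hK
  have hKv := dvd_of_atPrime.{u, u, u} p c hc (algebraMap K (p.adicCompletion K))
    (RingHom.id _) (RingHom.id_comp _)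
  have hKw := dvd_of_atPrime.{u, u, v} p c hc (algebraMap K (p.adicCompletion K))
    (RingHom.id _) (RingHom.id_comp _)
  have hpoly : poly c = pol fun i : Fin (d + 1) => (c i.succ : K) := rfl
  rw [← hpoly] at hK hKv hKw
  have hdegv : ((poly c).map (algebraMap K (p.adicCompletion K))).natDegree = d := by
    rw [natDegree_map, hdeg]
  have h0v : algebraMap K (p.adicCompletion K) (c 0) ≠ 0 := by rwa [Ne, map_eq_zero]
  refine ⟨h0, hdeg, hK.1, p, fun n hn => ⟨?_, ?_, ?_⟩⟩
  · have h1 := degrees_eq n hn (c 0 : K) h0 (poly c) hK.1.ne_zero
      (fun L _ _ _ h => hK.2 n hn L h)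
    rwa [hdeg] at h1
  · have h1 := degrees_eq n hn (algebraMap K (p.adicCompletion K) (c 0)) h0v
      ((poly c).map (algebraMap K (p.adicCompletion K))) hKv.1.ne_zero
      (fun L _ _ _ h => hKv.2 n hn L h)
    rwa [hdegv] at h1
  · intro F _ _ x y hxy O _ _ _
    have h1 := hKw.2 n hn (IsLocalRing.ResidueField O)
      (residue_point O n hn _ h0v _ x y hxy)
    rwa [hdegv] at h1

end proof

/-- **The degrees of the zero-cycles on 100% of all superelliptic curves.**  Let `K` be a number field
and `d ≥ 2`.  For all vectors `(a, c₀, …, c_d)` of integers of `K` outside a set of density zero (also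
in boxes), the polynomial `f = c₀ + … + c_d x^d` is irreducible of degree `d`, and there is a finite
place `v` of `K` such that for all `n ≥ 1` the degrees of the zero-cycles on the smooth projective
curve `a yⁿ = f(x)` over `K`, and also over `K_v`, are exactly the multiples of `gcd(n, d)`, and
`gcd(n, d)` divides the finite residue degrees of all valuation rings over `K_v` of all fields over
`K_v` which contain a point of the curve. -/
theorem result (K : Type u) [Field K] [NumberField K] (d : ℕ) (hd : 2 ≤ d) :
    DensityZero (Exceptional.{u, v} K d) ∧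
      ∀ (J : Type w) [Fintype J] (ω : Module.Basis J ℤ (𝓞 K)),
        Tendsto (fun H : ℕ => ((Exceptional.{u, v} K d ∩ Box ω (d + 2) H).ncard : ℝ) /
          ((Box ω (d + 2) H).ncard : ℝ)) atTop (𝓝 0) := by
  have key : Pool.Agent.TH120.Sec.DZ (d + 2) (Exceptional.{u, v} K d) := by
    refine Pool.Agent.TH377.Dyn.DZ.mono (Pool.Agent.TH728.ZC.dz_atPrime K d hd) ?_
    intro c hc hex
    obtain ⟨p, hp⟩ := hex
    exact good c p hp hc
  exact ⟨key, fun J _ ω => Pool.Agent.TH377.Dyn.box_tendsto _ key ω⟩

end Pool.Agent.Results.MP_1ad228_nt.IndexOfSuperellipticCurves
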