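import Pool.Agent.TH728.ZC.Deg
import Pool.Agent.TH728.ZC.Cur
import Pool.Agent.TH120.Sec.FamLoc

/-!
# Zero-cycles on 100% of the members of one-parameter families

Let `K` be a number field, `g ∈ K[t]`, `h ∈ K[t][x]` of degree `d ≥ 1` in `x`, and `m ≥ 1`.  Let `θ ∈ K̄`
be a simple root of `g` such that the polynomial `h(θ, x)` has degree `d` and distinct roots, and let
`σ ∈ Gal(K̄/K)` be an element with `σ(θ) = θ` all of whose orbits on the roots of `h(θ, x)` have a
length divisible by `m`.  For `t ∈ O_K` and `n ≥ 1` divisible by `m` let `X_t` be the smooth projective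
curve with the affine equation

  `g(t) yⁿ = h(t, x)`.

We show that for all `t ∈ O_K` outside a set of density zero there is a finite place `v` of `K` such
that for all these `n` at once:

* the degrees of the zero-cycles on `X_t` over `K`, and also over the completion `K_v`, are divisible
  by `m`, and there are zero-cycles of degree `gcd(n, d)`; so the degrees are exactly the multiples of
  `m` if `gcd(n, d) = m`, for instance if `d = m`;
* for every field `F ⊇ K_v` that contains a point of `X_t`, the finite residue degrees over `K_v` of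
  the valuation rings of `F` over `K_v` are divisible by `m`.

For `m > 1` there is in particular no zero-cycle of degree one over `K_v`, on `X_t` and on the smooth
projective varieties that dominate `X_t` (a closed point of a smooth variety over `K_v` has the
residue field of a valuation ring of the function field), and the question of the problem has a
positive answer for them.  The condition means that the fibre over `t = θ` of the family is not split
in a strong sense: apart from a multiple component of multiplicity `n` it consists geometrically of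
`d` curves (the lines `x = ρ`), which are permuted by an element of the Galois group of `K(θ)` with
orbits of lengths divisible by `m`.

If all coefficients vary, `Pool.Agent.Results.MP_1ad228_nt.IndexOfSuperellipticCurves` determines the
degrees; here one parameter varies, `h` may be a constant polynomial in `t` (the twists
`t yⁿ = h(x)` of one curve) and need not be irreducible, and `m` is arbitrary.

Proof.  By Chebotarev's theorem the sum of the `1/N v` over the primes `v` of `K` of prime norm whose
Frobenius element, in a large Galois extension, is `σ` diverges.  For almost all such `v` there is a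
residue class of `t` modulo `v` for which `v` divides `g(t)`, exactly once for all but one of the
classes modulo `v²`, and the irreducible factors of `h(t, x)` modulo `v` are distinct and have the
lengths of the orbits of `σ` as degrees.  A sieve shows that almost all `t` are in such a class for
some `v` (`Pool.Agent.TH728.ZC.Fam`, after `Pool.Agent.TH120.Sec`).  Let `k` be `K` or `K_v`, and let
`L` be a finite extension of `k` with a point of `X_t`, of degree not divisible by `m`.  Because of
`∑ e(w|v) f(w|v) = [L : k]` there is a place `w` of `L` above `v` with `m ∤ e(w|v)` and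
`m ∤ f(w|v)`.  So `h(t, x)` has no root in the residue field of `w`, the value of `h(t, x)` at `w` is
divisible by `m` for all `x ∈ L`, and that of `g(t) yⁿ` is congruent to `e(w|v)` modulo `m`, a
contradiction.
-/

set_option autoImplicit false

open Polynomial NumberField IsDedekindDomain Module

namespace Pool.Agent.Results.MP_1ad228_nt.NonSplitFamilies

universe u v w

/-- The smooth projective curve with the affine equation `a yⁿ = f(x)` over `k` has a point over
`L ⊇ k`: a point of the affine curve, or a point at infinity, that is, a root `r` of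
`a r^g = lc(f)` with `g = gcd(n, deg f)`. -/
def HasPoint {k : Type u} [Field k] (n : ℕ) (a : k) (f : k[X]) (L : Type w) [Field L]
    [Algebra k L] : Prop :=
  (∃ x y : L, algebraMap k L a * y ^ n = aeval x f) ∨
    ∃ r : L, algebraMap k L a * r ^ Nat.gcd n f.natDegree = algebraMap k L f.leadingCoeff

/-- The degrees of the zero-cycles on the smooth projective curve with the affine equation
`a yⁿ = f(x)` over `k`: the subgroup of `ℤ` generated by the degrees `[L : k]` of the finite
extensions `L` of `k` over which the curve has a point. -/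
def ZeroCycleDegrees {k : Type u} [Field k] (n : ℕ) (a : k) (f : k[X]) : AddSubgroup ℤ :=
  AddSubgroup.closure {m | ∃ (L : Type u) (_ : Field L) (_ : Algebra k L),
    FiniteDimensional k L ∧ HasPoint n a f L ∧ m = (finrank k L : ℤ)}

/-- Let `F ⊇ k` be any field that contains a point `(x, y)` with `a yⁿ = f(x)`, and let `O` be any
valuation ring of `F` that contains `k` and whose residue field is finite over `k`.  Then its degree
over `k` is divisible by `m`. -/
def ResidueDegreesDivisible {k : Type u} [Field k] (n : ℕ) (a : k) (f : k[X]) (m : ℕ) : Prop :=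
  ∀ (F : Type v) [Field F] [Algebra k F] (x y : F), algebraMap k F a * y ^ n = aeval x f →
    ∀ (O : ValuationSubring F) [Algebra k O] [IsScalarTower k O F]
      [FiniteDimensional k (IsLocalRing.ResidueField O)],
      m ∣ finrank k (IsLocalRing.ResidueField O)

/-- The degrees of the zero-cycles on the curve `a yⁿ = f(x)` over `k` are multiples of `m`, and they
include the multiples of `gcd(n, deg f)`. -/
def Between {k : Type u} [Field k] (m n : ℕ) (a : k) (f : k[X]) : Prop :=
  ZeroCycleDegrees n a f ≤ AddSubgroup.zmultiples (m : ℤ) ∧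
    AddSubgroup.zmultiples ((Nat.gcd n f.natDegree : ℕ) : ℤ) ≤ ZeroCycleDegrees n a f

/-- The polynomial `h(t, x)` in `x`, where `t` is an element of an extension `E` of `K`. -/
noncomputable def fibre {K : Type u} [Field K] {E : Type*} [Field E] [Algebra K E] (h : K[X][X])
    (t : E) : E[X] :=
  h.map (aeval t : K[X] →ₐ[K] E).toRingHom

/-- There are a simple root `θ ∈ K̄` of `g`, for which `h(θ, x)` has the same degree as `h` and
distinct roots, and `σ ∈ Gal(K̄/K)` with `σ(θ) = θ` such that no power `σ ^ j` with `j` not divisible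
by `m` fixes a root of `h(θ, x)`, that is, the lengths of all orbits of `σ` on the roots are divisible
by `m`. -/
def NonSplit {K : Type u} [Field K] (m : ℕ) (g : K[X]) (h : K[X][X]) : Prop :=
  ∃ (θ : AlgebraicClosure K) (σ : AlgebraicClosure K ≃ₐ[K] AlgebraicClosure K),
    aeval θ g = 0 ∧ aeval θ g.derivative ≠ 0 ∧ aeval θ h.leadingCoeff ≠ 0 ∧
    (fibre h θ).Separable ∧ σ θ = θ ∧
    ∀ ρ, (fibre h θ).eval ρ = 0 → ∀ j : ℕ, ¬ m ∣ j → (σ ^ j) ρ ≠ ρ

/-- The integers `t` of `K` that do not have the following property: `g(t) ≠ 0`, `h(t, x)` is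
separable of the same degree as `h`, and there is a finite place `v` such that for all `n ≥ 1`
divisible by `m` the degrees of the zero-cycles on the curve `g(t) yⁿ = h(t, x)` over `K` and over
`K_v` are multiples of `m` and include the multiples of `gcd(n, d)`, and the finite residue degrees of
all valuation rings over `K_v` of all fields over `K_v` which contain a point of the curve are
divisible by `m`. -/
def Exceptional {K : Type u} [Field K] [NumberField K] (m : ℕ) (g : K[X]) (h : K[X][X]) :
    Set (𝓞 K) :=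
  {t | ¬ (g.eval (t : K) ≠ 0 ∧ (fibre h (t : K)).Separable ∧
    (fibre h (t : K)).natDegree = h.natDegree ∧
    ∃ p : HeightOneSpectrum (𝓞 K), ∀ n : ℕ, 0 < n → m ∣ n →
      Between m n (g.eval (t : K)) (fibre h (t : K)) ∧
      Between m n (algebraMap K (p.adicCompletion K) (g.eval (t : K)))
        ((fibre h (t : K)).map (algebraMap K (p.adicCompletion K))) ∧
      ResidueDegreesDivisible.{u, v} n (algebraMap K (p.adicCompletion K) (g.eval (t : K)))
        ((fibre h (t : K)).map (algebraMap K (p.adicCompletion K))) m)}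

/-- Density zero: for every `ε > 0` there is an ideal `I ≠ 0` such that `E` lies in at most
`ε #(O_K/I)` residue classes modulo `I`. -/
def DensityZero {K : Type u} [Field K] (E : Set (𝓞 K)) : Prop :=
  ∀ ε : ℝ, 0 < ε → ∃ I : Ideal (𝓞 K), I ≠ ⊥ ∧
    (Set.ncard ((Ideal.Quotient.mk I) '' E) : ℝ) ≤ ε * Nat.card (𝓞 K ⧸ I)

section proof

open Pool.Agent.TH728.ZC
open Pool.Agent.TH120.Sec (evC)

lemma between_of {k : Type u} [Field k] (m n : ℕ) (hn : 0 < n) (a : k) (ha : a ≠ 0) (f : k[X])
    (hf : f ≠ 0)
    (h : ∀ (L : Type u) [Field L] [Algebra k L] [FiniteDimensional k L],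
      HasPoint n a f L → m ∣ finrank k L) : Between m n a f := by
  constructor
  · rw [ZeroCycleDegrees, AddSubgroup.closure_le]
    rintro j ⟨L, hL1, hL2, hL3, hL4, rfl⟩
    obtain ⟨t, ht⟩ := h L hL4
    refine AddSubgroup.mem_zmultiples_iff.2 ⟨t, ?_⟩
    rw [ht, smul_eq_mul, Nat.cast_mul, mul_comm]
  · rw [AddSubgroup.zmultiples_le]
    refine gcd_mem n hn a ha f hf _ ?_
    intro L _ _ _ x y hxy
    exact AddSubgroup.subset_closure ⟨L, inferInstance, inferInstance, inferInstance,
      Or.inl ⟨x, y, hxy⟩, rfl⟩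

variable {K : Type u} [Field K] [NumberField K]

lemma evC_eq (θ : AlgebraicClosure K) :
    ((aeval θ : K[X] →ₐ[K] AlgebraicClosure K).toRingHom).comp
      (mapRingHom (algebraMap (𝓞 K) K)) = evC θ := by
  apply Polynomial.ringHom_ext
  · intro a
    simp [evC]
  · simp [evC]

lemma evK_eq (t : 𝓞 K) :
    ((aeval (t : K) : K[X] →ₐ[K] K).toRingHom).comp (mapRingHom (algebraMap (𝓞 K) K)) =
      (algebraMap (𝓞 K) K).comp (evalRingHom t) := by
  apply Polynomial.ringHom_ext
  · intro a
    simp
  · simp

lemma spc_of (m : ℕ) (g : K[X]) (h : K[X][X]) (a : 𝓞 K) (ha : (a : K) ≠ 0) (G : (𝓞 K)[X])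
    (H : (𝓞 K)[X][X]) (hG : G.map (algebraMap (𝓞 K) K) = C (a : K) * g)
    (hH : H.map (mapRingHom (algebraMap (𝓞 K) K)) = C (C (a : K)) * h)
    (hs : NonSplit m g h) : ∃ θ σ, Spc m G H θ σ := by
  obtain ⟨θ, σ, h1, h2, h3, h4, h5, h6⟩ := hs
  have hinj : Function.Injective (algebraMap (𝓞 K) K) := IsFractionRing.injective (𝓞 K) K
  have haC : algebraMap K (AlgebraicClosure K) (a : K) ≠ 0 := (_root_.map_ne_zero _).2 ha
  have hev : ∀ q : (𝓞 K)[X], evC θ q = aeval θ (q.map (algebraMap (𝓞 K) K)) := fun q =>
    (congrFun (congrArg DFunLike.coe (evC_eq θ)) q).symm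
  have hHθ : H.map (evC θ) = C (algebraMap K (AlgebraicClosure K) (a : K)) * fibre h θ := by
    rw [← evC_eq, ← Polynomial.map_map, hH, Polynomial.map_mul, map_C]
    congr 1
    simp
  have hlc : (H.leadingCoeff).map (algebraMap (𝓞 K) K) = C (a : K) * h.leadingCoeff := by
    have e1 : (H.map (mapRingHom (algebraMap (𝓞 K) K))).leadingCoeff =
        mapRingHom (algebraMap (𝓞 K) K) H.leadingCoeff :=
      leadingCoeff_map_of_injective
        (f := mapRingHom (algebraMap (𝓞 K) K)) (Polynomial.map_injective _ hinj) H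
    have e2 : (C (C (a : K)) * h).leadingCoeff = C (a : K) * h.leadingCoeff := by
      rw [leadingCoeff_mul, leadingCoeff_C]
    rw [← e2, ← hH, e1]
    rfl
  refine ⟨θ, σ, ?_, ?_, ?_, ?_, h5, ?_⟩
  · rw [hev, hG, map_mul, h1, mul_zero]
  · rw [hev, ← derivative_map, hG, derivative_C_mul, map_mul, aeval_C]
    exact mul_ne_zero haC h2
  · rw [hev, hlc, map_mul, aeval_C]
    exact mul_ne_zero haC h3
  · rw [hHθ]
    exact Separable.unit_mul (isUnit_C.2 haC.isUnit) h4
  · intro j hj ρ hρ
    rw [hHθ, eval_mul, eval_C] at hρ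
    have := h6 ρ ((mul_eq_zero.1 hρ).resolve_left haC) j hj
    rwa [AlgEquiv.coe_pow] at this

/-- the points over the number field -/
lemma point_K (p : HeightOneSpectrum (𝓞 K)) (m d : ℕ) (P : (𝓞 K)[X]) (b : 𝓞 K) (a g0 : K)
    (f : K[X]) (hPK : P.map (algebraMap (𝓞 K) K) = C a * f)
    (hGt : algebraMap (𝓞 K) K b = a * g0)
    (hlcP : algebraMap (𝓞 K) K P.leadingCoeff = a * f.leadingCoeff) (hdegf : f.natDegree = d)
    (hloc : Loc p m d P) (hd : m ∣ d) (hv1 : b ∈ p.asIdeal) (hv2 : b ∉ p.asIdeal ^ 2) (n : ℕ)
    (hn0 : 0 < n) (hn : m ∣ n) (L : Type w) [Field L] [Algebra K L] [FiniteDimensional K L]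
    (hL : HasPoint n g0 f L) : m ∣ finrank K L := by
  have hGt' : (b : K) = a * g0 := hGt
  have hlcP' : (P.leadingCoeff : K) = a * f.leadingCoeff := hlcP
  refine curve_dvd_K p m d P hloc hd b hv1 hv2 n hn0 hn L ?_
  rcases hL with ⟨x, y, hxy⟩ | ⟨r, hr⟩
  · left
    refine ⟨x, y, ?_⟩
    rw [hPK, map_mul, aeval_C, ← hxy, hGt', map_mul]
    ring
  · right
    refine ⟨r, ?_⟩
    rw [hdegf] at hr
    rw [hlcP', map_mul, ← hr, hGt', map_mul]
    ring

/-- the points over the completion -/
lemma point_Kv (p : HeightOneSpectrum (𝓞 K)) (m d : ℕ) (P : (𝓞 K)[X]) (b : 𝓞 K) (a g0 : K)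
    (f : K[X]) (hPK : P.map (algebraMap (𝓞 K) K) = C a * f)
    (hGt : algebraMap (𝓞 K) K b = a * g0)
    (hlcP : algebraMap (𝓞 K) K P.leadingCoeff = a * f.leadingCoeff) (hdegf : f.natDegree = d)
    (hloc : Loc p m d P) (hd : m ∣ d) (hv1 : b ∈ p.asIdeal) (hv2 : b ∉ p.asIdeal ^ 2) (n : ℕ)
    (hn0 : 0 < n) (hn : m ∣ n) (L : Type w) [Field L] [Algebra (p.adicCompletion K) L]
    [FiniteDimensional (p.adicCompletion K) L]
    (hL : HasPoint n (algebraMap K (p.adicCompletion K) g0)
      (f.map (algebraMap K (p.adicCompletion K))) L) : m ∣ finrank (p.adicCompletion K) L := by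
  have hGt' : (b : K) = a * g0 := hGt
  have hlcP' : (P.leadingCoeff : K) = a * f.leadingCoeff := hlcP
  refine curve_dvd_Kv p m d P hloc hd b hv1 hv2 n hn0 hn L ?_
  rcases hL with ⟨x, y, hxy⟩ | ⟨r, hr⟩
  · left
    refine ⟨x, y, ?_⟩
    rw [hPK, Polynomial.map_mul, map_C, map_mul, aeval_C, ← hxy, hGt', map_mul, map_mul]
    ring
  · right
    refine ⟨r, ?_⟩
    rw [natDegree_map, hdegf, leadingCoeff_map] at hr
    rw [hlcP', map_mul, map_mul, ← hr, hGt', map_mul, map_mul]
    ring

end proof

/-- **Zero-cycles on 100% of the members of a family.**  Let `K` be a number field, `m ≥ 1`,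
`g ∈ K[t]`, `h ∈ K[t][x]`, where the degree `d ≥ 1` of `h` in `x` is divisible by `m`.  Suppose that
`NonSplit m g h`: some element of `Gal(K̄/K)` fixes a simple root `θ` of `g`, and its orbits on the
roots of `h(θ, x)` have lengths divisible by `m`.  Then for all `t ∈ O_K` outside a set of density
zero there is a finite place `v` of `K` such that for all `n ≥ 1` divisible by `m`, the degrees of the
zero-cycles on the curve `g(t) yⁿ = h(t, x)`, over `K` and over `K_v`, are multiples of `m` and include
the multiples of `gcd(n, d)`, and `m` divides the finite residue degrees of all valuation rings over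
`K_v` of all fields over `K_v` which contain a point of the curve. -/
theorem result (K : Type u) [Field K] [NumberField K] (m : ℕ) (g : K[X])
    (h : K[X][X]) (_h0 : 0 < h.natDegree) (hd : m ∣ h.natDegree) (hs : NonSplit m g h) :
    DensityZero (Exceptional.{u, v} m g h) := by
  have hinj : Function.Injective (algebraMap (𝓞 K) K) := IsFractionRing.injective (𝓞 K) K
  obtain ⟨a₁, ha₁, G₁, hG₁⟩ := Pool.Agent.TH120.Sec.clear1 g
  obtain ⟨a₂, ha₂, H₂, hH₂⟩ := Pool.Agent.TH120.Sec.clear2 h
  obtain ⟨a, ha⟩ : ∃ a : 𝓞 K, a = a₁ * a₂ := ⟨_, rfl⟩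
  have ha0 : (a : K) ≠ 0 := by
    intro h0
    rw [ha] at h0
    exact mul_ne_zero ha₁ ha₂ (RingOfIntegers.coe_injective h0)
  have haK : (a : K) = (a₁ : K) * (a₂ : K) := by
    rw [ha]
    exact map_mul (algebraMap (𝓞 K) K) a₁ a₂
  obtain ⟨G, hGdef⟩ : ∃ G : (𝓞 K)[X], G = C a₂ * G₁ := ⟨_, rfl⟩
  obtain ⟨H, hHdef⟩ : ∃ H : (𝓞 K)[X][X], H = C (C a₁) * H₂ := ⟨_, rfl⟩
  have hG : G.map (algebraMap (𝓞 K) K) = C (a : K) * g := by
    rw [hGdef, Polynomial.map_mul, map_C, hG₁, haK, C_mul]
    ring
  have hH : H.map (mapRingHom (algebraMap (𝓞 K) K)) = C (C (a : K)) * h := by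
    rw [hHdef, Polynomial.map_mul, map_C, coe_mapRingHom, map_C, hH₂, haK, C_mul, C_mul]
    ring
  obtain ⟨θ, σ, hspc⟩ := spc_of m g h a ha0 G H hG hH hs
  have hdeg : H.natDegree = h.natDegree := by
    rw [← natDegree_map_eq_of_injective
      (f := mapRingHom (algebraMap (𝓞 K) K)) (Polynomial.map_injective _ hinj) H, hH,
      natDegree_C_mul (by rwa [Ne, C_eq_zero])]
  refine Pool.Agent.TH728.ZC.fam_dz m G H θ σ hspc _ ?_
  rintro t ht p ⟨hv1, hv2, hloc⟩
  apply ht
  rw [hdeg] at hloc
  -- the member of the family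
  set P := H.map (evalRingHom t) with hP
  have hPK : P.map (algebraMap (𝓞 K) K) = C (a : K) * fibre h (t : K) := by
    rw [hP, Polynomial.map_map, ← evK_eq, ← Polynomial.map_map, hH, Polynomial.map_mul, map_C]
    congr 1
    simp
  have hGt : algebraMap (𝓞 K) K (G.eval t) = a * g.eval (t : K) := by
    have h1 : (G.map (algebraMap (𝓞 K) K)).eval (algebraMap (𝓞 K) K t) =
      algebraMap (𝓞 K) K (G.eval t) := eval_map_apply _ _
    rw [hG, eval_mul, eval_C] at h1
    exact h1.symm
  have hsep := Pool.Agent.TH120.Sec.sep_lift p P hloc.2.1 hloc.2.2.1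
  have hdegP : (P.map (algebraMap (𝓞 K) K)).natDegree = h.natDegree := by
    rw [natDegree_map_eq_of_injective hinj, hloc.1]
  have hdegf : (fibre h (t : K)).natDegree = h.natDegree := by
    rw [← hdegP, hPK, natDegree_C_mul ha0]
  have hlcP : algebraMap (𝓞 K) K P.leadingCoeff = a * (fibre h (t : K)).leadingCoeff := by
    rw [← leadingCoeff_map_of_injective hinj, hPK, leadingCoeff_mul, leadingCoeff_C]
  have hg0 : g.eval (t : K) ≠ 0 := by
    intro h0
    rw [h0, mul_zero] at hGt
    apply hv2
    rw [RingOfIntegers.coe_injective (a₂ := (0 : 𝓞 K)) hGt]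
    exact zero_mem _
  have hfsep : (fibre h (t : K)).Separable := by
    rw [hPK] at hsep
    exact hsep.of_mul_right
  have hf0 : fibre h (t : K) ≠ 0 := hfsep.ne_zero
  have hg0v : algebraMap K (p.adicCompletion K) (g.eval (t : K)) ≠ 0 := by
    rwa [Ne, map_eq_zero]
  have hf0v : (fibre h (t : K)).map (algebraMap K (p.adicCompletion K)) ≠ 0 := by
    rwa [Ne, Polynomial.map_eq_zero]
  refine ⟨hg0, hfsep, hdegf, p, fun n hn0 hn => ⟨?_, ?_, ?_⟩⟩
  · exact between_of m n hn0 _ hg0 _ hf0 fun L _ _ _ hL =>
      point_K p m h.natDegree P (G.eval t) a _ _ hPK hGt hlcP hdegf hloc hd hv1 hv2 n hn0 hn L hL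
  · exact between_of m n hn0 _ hg0v _ hf0v fun L _ _ _ hL =>
      point_Kv p m h.natDegree P (G.eval t) a _ _ hPK hGt hlcP hdegf hloc hd hv1 hv2 n hn0 hn L hL
  · intro F _ _ x y hxy O _ _ _
    exact point_Kv p m h.natDegree P (G.eval t) a _ _ hPK hGt hlcP hdegf hloc hd hv1 hv2 n hn0 hn
      (IsLocalRing.ResidueField O)
      (Pool.Agent.TH728.ZC.residue_point O n hn0 _ hg0v _ x y hxy)

end Pool.Agent.Results.MP_1ad228_nt.NonSplitFamilies
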