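import Mathlib
import Pool.Agent.TH344.PH.Comp
import Pool.Agent.TH344.JG.Main
import Pool.Agent.TH344.JG.MW

/-!
# Torsors under the members of a family of Jacobians, over number fields that vary with the member

Let `g ≥ 1` and let `u_0, ..., u_(2g)` be polynomials with integer coefficients, of any degrees, such
that the differences `u_i - u_j` are not constant and squarefree over `ℚ`, and the differences of
different pairs are coprime. (For instance `u_i = α_i t + β_i`, if the lines have different slopes
and intersect over different points `t`; or generic polynomials of any degree.) Let `ν_(i,j)` be the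
number of the irreducible factors of `u_i - u_j` over `ℚ`. We suppose that these numbers are
balanced: there are positive weights for the pairs `p ≠ q` of pairs of indices with a common index,
such that for every pair `p` the sum of the weights of the `(p, q)` is `ν_p`. This is the case if all
the `ν_(i,j)` are equal; for `g = 1` the condition is that the three numbers `ν_(i,j)` satisfy the
strict triangle inequalities.

Let `J_t` be the Jacobian of the curve `y² = ∏ (x - u_i(t))` of genus `g`. Let `G_1, ..., G_r` be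
different irreducible polynomials that are coprime to the differences `u_i - u_j`, and let
`D_0, ..., D_s` be nonzero polynomials whose irreducible factors of positive degree are among the
`G_l`, for instance constants, the `G_l`, or products of them. We consider the integers `t` for which
all the numbers `|G_l(t)|` are prime, the quadratic twist `A_t` of `J_t` by `D_0(t)`, and the number
field `K_t = ℚ(√D_1(t), ..., √D_s(t))`, which ramifies at these primes. (For instance `t = p` prime
and `K_t = ℚ(√p)` or `ℚ(√-1, √p)`.)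

A torsor `X` under the abelian variety `A_t` over `K_t`, for which there is a family of local
zero-cycles of degree one that is orthogonal to the Brauer group of `X`, has points over all the
completions, and its class is a divisible element of `Ш(A_t / K_t)`; all the divisible elements
occur (Manin; Creutz, for the transcendental part of the Brauer group). It has a zero-cycle of degree
one over `K_t` if and only if its class is zero. So the number of the torsors under `A_t` of period
dividing `2 ^ m` for which the Brauer-Manin obstruction is not the only one for zero-cycles of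
degree one is `2 ^ (m c) - 1`, `c` the corank of `Ш(A_t / K_t)[2 ^ ∞]`. The restriction of scalars of
`A_t` from `K_t` to `ℚ` is isogenous to a product of the quadratic twists of `J_t` by
`D_0(t) ∏_(i ∈ T) D_i(t)` over subsets `T` of `{1, ..., s}`. So `2 ^ c` is at most the product over
all `T` of the orders of the groups `Ш[2] = Sel₂ / MW` of these twists.

We show that there is a set `Z` of integers, that contains only a proportion of zero of the `t` for
which all the `|G_l(t)|` are prime, such that for every `k` the sum of the `k`-th powers of the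
product of the orders of the 2-Selmer groups of the twists over all the other `t` of an interval
`(N, N + M]`, `|N| ≤ M ^ L`, is at most `C M / (log M) ^ r`. In particular off `Z` the number of the
exceptional torsors of period dividing `2 ^ m` under `A_t` over `K_t` is bounded on average, for
every `m`, and the rank of `J_t` over `K_t` and the corank of `Ш(J_t / K_t)[2 ^ ∞]` are at least `n`
for at most `C_A M / (A ^ n (log M) ^ r)` of these `t`, for every real number `A`.

The descent map. Every class of divisors of degree zero on `X : y² = ∏ (x - a_i)` over an infinite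
field `K` contains a divisor `D_(u,v) = ∑ (x_j, v (x_j)) - deg u · ∞`, `x_j` the zeros of the monic
polynomial `u`, where `u` divides `∏ (x - a_i) - v²` and `u (a_i) ≠ 0` for all `i` (Mumford
representation). The map `J(K) / 2 J(K) → (K^* / K^*²)^(2g+1)` which sends this class to the family
of the classes of `(-1) ^ deg u * u (a_i)` is injective, and it is induced by the isomorphism of
`J[2]` with the group of the families of signs with product one, indexed by the `a_i`. So the
2-Selmer group of `J` is the group of the families of classes in `ℚ^* / ℚ^*²`, that are in the image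
over `ℝ` and over `ℚ_p` for all primes `p`. The classes of `ℚ^* / ℚ^*²` are represented by
squarefree integers.
-/

namespace Pool.Agent.Results.MP_1ad228_nt.TorsorsUnderJacobianPencils

open Polynomial Finset

/-- The family of the classes of the integers `d i` in `K^* / K^*²` is in the image of the
Jacobian of `y² = ∏ (x - a i)` over `K`: there are a monic polynomial `u` and a polynomial `v` with
`u ∣ ∏ (x - a i) - v²`, such that `u (a i) ≠ 0` and `(-1) ^ deg u * u (a i) * d i` is a square for
all `i`. -/
def Image (K : Type) [Field K] {n : ℕ} (a d : Fin n → ℤ) : Prop :=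
  ∃ u v : K[X], u.Monic ∧ u ∣ (∏ i, (X - C ((a i : ℤ) : K))) - v ^ 2 ∧
    ∀ i, u.eval ((a i : ℤ) : K) ≠ 0 ∧
      IsSquare ((-1) ^ u.natDegree * u.eval ((a i : ℤ) : K) * ((d i : ℤ) : K))

/-- The image of the Mordell-Weil group `J(ℚ)`, as a set of families of squarefree integers. It has
as many elements as `J(ℚ) / 2 J(ℚ)`. -/
def MW {n : ℕ} (a : Fin n → ℤ) : Set (Fin n → ℤ) := {d | (∀ i, Squarefree (d i)) ∧ Image ℚ a d}

/-- The 2-Selmer group of the Jacobian `J` of `y² = ∏ (x - a i)`, as a set of families of
squarefree integers. The quotient of this group by `MW a` is `Ш(J)[2]`. -/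
def Sel2 {n : ℕ} (a : Fin n → ℤ) : Set (Fin n → ℤ) :=
  {d | (∀ i, Squarefree (d i)) ∧ Image ℝ a d ∧ ∀ (p : ℕ) [Fact p.Prime], Image ℚ_[p] a d}

/-- the family of the Weierstrass points of the member `t` of the family of curves -/
def member {n : ℕ} (u : Fin n → ℤ[X]) (t : ℤ) : Fin n → ℤ := fun i => (u i).eval t

/-- the Weierstrass points of the quadratic twist by `e` of `y² = ∏ (x - a i)` -/
def twist {n : ℕ} (e : ℤ) (a : Fin n → ℤ) : Fin n → ℤ := fun i => e * a i

/-- the polynomial `p` as a polynomial with rational coefficients -/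
noncomputable def overQ (p : ℤ[X]) : ℚ[X] := p.map (Int.castRingHom ℚ)

/-- the pairs of indices -/
abbrev Pair (n : ℕ) : Type := {p : Fin n × Fin n // p.1 < p.2}

/-- two different pairs of indices with a common index -/
def Meet {n : ℕ} (p q : Pair n) : Prop :=
  p ≠ q ∧ (p.1.1 = q.1.1 ∨ p.1.1 = q.1.2 ∨ p.1.2 = q.1.1 ∨ p.1.2 = q.1.2)

/-- The numbers `ν p` are balanced: they are the row sums of a symmetric matrix `A` whose entries are
positive at the `(p, q)` with `Meet p q`, and zero otherwise. -/
def Balanced {n : ℕ} (ν : Pair n → ℕ) : Prop :=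
  ∃ A : Pair n → Pair n → ℝ, (∀ p q, A p q = A q p) ∧ (∀ p q, Meet p q → 0 < A p q) ∧
    (∀ p q, ¬ Meet p q → A p q = 0) ∧ ∀ p, ∑ q, A p q = ν p

/-- the numbers of the irreducible factors over `ℚ` of the differences `u i - u j` -/
noncomputable def factors {n : ℕ} (u : Fin n → ℤ[X]) (p : Pair n) : ℕ :=
  (UniqueFactorizationMonoid.normalizedFactors (overQ (u p.1.1 - u p.1.2))).card

/-- The family is admissible: the differences `u i - u j` are not constant and squarefree, the
differences of different pairs are coprime, over the rationals, and the numbers of the irreducible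
factors of the differences are balanced. -/
structure Admissible {n : ℕ} (u : Fin n → ℤ[X]) : Prop where
  nonconstant : ∀ i j, i < j → 0 < (u i - u j).natDegree
  squarefree : ∀ i j, i < j → Squarefree (overQ (u i - u j))
  coprime : ∀ i j k l, i < j → k < l → (i, j) ≠ (k, l) →
    IsCoprime (overQ (u i - u j)) (overQ (u k - u l))
  balanced : Balanced (factors u)

/-- The polynomials `G i` are irreducible, not constant, not associated with each other, and coprime
to the differences of the `u i`. -/
structure Independent {n r : ℕ} (u : Fin n → ℤ[X]) (G : Fin r → ℤ[X]) : Prop where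
  irreducible : ∀ l, Irreducible (G l)
  nonconstant : ∀ l, 0 < (G l).natDegree
  different : ∀ l m, l ≠ m → ¬ Associated (G l) (G m)
  coprime : ∀ l i j, i < j → IsCoprime (overQ (G l)) (overQ (u i - u j))

open Classical in
/-- The integers `t` of the interval `(N, N + M]` such that all the numbers `|G l (t)|` are prime,
and `P t` holds. -/
noncomputable def arguments {r : ℕ} (G : Fin r → ℤ[X]) (N : ℤ) (M : ℕ) (P : ℤ → Prop) : Finset ℤ :=
  (Ioc N (N + (M : ℤ))).filter (fun t => (∀ l, ((G l).eval t).natAbs.Prime) ∧ P t)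

/-- The polynomial `p` is composed of the `G l`: it divides the product of a nonzero constant and a
power of the product of the `G l`. (So the irreducible factors of positive degree of `p` are among
the `G l`, up to the sign.) -/
def Composed {r : ℕ} (G : Fin r → ℤ[X]) (p : ℤ[X]) : Prop :=
  ∃ (c : ℤ) (m : ℕ), c ≠ 0 ∧ p ∣ C c * (∏ l, G l) ^ m

/-- the integer `D 0 (t) * ∏_(i ∈ T) D i (t)` -/
noncomputable def scalar {s : ℕ} (D0 : ℤ[X]) (D : Fin s → ℤ[X]) (T : Finset (Fin s)) (t : ℤ) : ℤ :=
  D0.eval t * ∏ i ∈ T, (D i).eval t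

/-- the product over all subsets `T` of the orders of the 2-Selmer groups of the twists of `J_t` by
`D0 (t) * ∏_(i ∈ T) D i (t)` -/
noncomputable def selmer {n s : ℕ} (u : Fin n → ℤ[X]) (D0 : ℤ[X]) (D : Fin s → ℤ[X]) (t : ℤ) : ℕ :=
  ∏ T : Finset (Fin s), (Sel2 (twist (scalar D0 D T t) (member u t))).ncard

/-- the product over all subsets `T` of the orders of the groups `J'(ℚ) / 2 J'(ℚ)`, `J'` the twist
of `J_t` by `D0 (t) * ∏_(i ∈ T) D i (t)` -/
noncomputable def mordellWeil {n s : ℕ} (u : Fin n → ℤ[X]) (D0 : ℤ[X]) (D : Fin s → ℤ[X]) (t : ℤ) :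
    ℕ :=
  ∏ T : Finset (Fin s), (MW (twist (scalar D0 D T t) (member u t))).ncard

lemma mem_arguments {r : ℕ} {G : Fin r → ℤ[X]} {N : ℤ} {M : ℕ} {P : ℤ → Prop} {t : ℤ} :
    t ∈ arguments G N M P ↔ t ∈ Ioc N (N + (M : ℤ)) ∧
      (∀ l, ((G l).eval t).natAbs.Prime) ∧ P t := by
  classical
  unfold arguments
  rw [mem_filter]

lemma markov {S : Finset ℤ} {R : ℤ → ℝ} {P : ℤ → Prop} [DecidablePred P] {k m : ℕ} {B : ℝ}
    (hR : ∀ t ∈ S, 0 ≤ R t) (h : ∑ t ∈ S, R t ^ k ≤ B) (hP : ∀ t ∈ S, P t → (2 : ℝ) ^ m ≤ R t) :
    ((2 : ℝ) ^ k) ^ m * ((S.filter P).card : ℝ) ≤ B := by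
  refine le_trans ?_ h
  calc ((2 : ℝ) ^ k) ^ m * ((S.filter P).card : ℝ) = ∑ t ∈ S.filter P, ((2 : ℝ) ^ k) ^ m := by
        rw [sum_const, nsmul_eq_mul, mul_comm]
    _ ≤ ∑ t ∈ S.filter P, R t ^ k := by
        apply sum_le_sum
        intro t ht
        rw [mem_filter] at ht
        rw [← pow_mul, mul_comm, pow_mul]
        exact pow_le_pow_left₀ (by positivity) (hP t ht.1 ht.2) k
    _ ≤ _ := sum_le_sum_of_subset_of_nonneg (filter_subset _ _) fun t ht _ =>
        pow_nonneg (hR t ht) k

lemma adj_iff {n : ℕ} (p q : Pair n) : Pool.Agent.TH344.JG.adj p q = true ↔ Meet p q := by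
  unfold Pool.Agent.TH344.JG.adj Meet
  rw [Bool.and_eq_true, decide_eq_true_eq, decide_eq_true_eq]

lemma bal_of {n : ℕ} {ν : Pair n → ℕ} (h : Balanced ν) : Pool.Agent.TH344.PW.Bal n ν := by
  obtain ⟨A, h1, h2, h3, h4⟩ := h
  refine ⟨A, h1, fun p q hpq => h2 p q ((adj_iff p q).1 hpq), fun p q hpq => h3 p q ?_, h4⟩
  intro h5
  rw [(adj_iff p q).2 h5] at hpq
  exact Bool.noConfusion hpq

lemma card_fst {n : ℕ} (i : Fin n) : (univ.filter (fun q : Pair n => i = q.1.1)).card = n - 1 - i := by
  rw [← Fin.card_Ioi i]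
  refine card_bij (fun q _ => q.1.2) ?_ ?_ ?_
  · intro q hq
    rw [mem_filter] at hq
    rw [mem_Ioi, hq.2]
    exact q.2
  · intro q hq q' hq' h
    rw [mem_filter] at hq hq'
    exact Subtype.ext (Prod.ext (hq.2.symm.trans hq'.2) h)
  · intro j hj
    rw [mem_Ioi] at hj
    exact ⟨⟨(i, j), hj⟩, by simp, rfl⟩

lemma card_snd {n : ℕ} (i : Fin n) : (univ.filter (fun q : Pair n => i = q.1.2)).card = i := by
  rw [← Fin.card_Iio i]
  refine card_bij (fun q _ => q.1.1) ?_ ?_ ?_
  · intro q hq
    rw [mem_filter] at hq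
    rw [mem_Iio, hq.2]
    exact q.2
  · intro q hq q' hq' h
    rw [mem_filter] at hq hq'
    exact Subtype.ext (Prod.ext h (hq.2.symm.trans hq'.2))
  · intro j hj
    rw [mem_Iio] at hj
    exact ⟨⟨(j, i), hj⟩, by simp, rfl⟩

open Classical in
lemma card_meet {n : ℕ} (p : Pair n) :
    (univ.filter (fun q => Meet p q)).card = 2 * (n - 2) := by
  have h1 : ∀ q : Pair n, (if Meet p q then 1 else 0) + (if p = q then 2 else 0) =
      (if p.1.1 = q.1.1 then 1 else 0) + (if p.1.1 = q.1.2 then 1 else 0) +
      (if p.1.2 = q.1.1 then 1 else 0) + (if p.1.2 = q.1.2 then 1 else 0) := by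
    intro q
    obtain ⟨⟨a, b⟩, hab⟩ := p
    obtain ⟨⟨c, d⟩, hcd⟩ := q
    simp only at hab hcd
    unfold Meet
    simp only [ne_eq, Subtype.mk.injEq, Prod.mk.injEq]
    split_ifs <;> first | rfl | (exfalso; omega)
  have h2 := sum_congr (rfl : (univ : Finset (Pair n)) = univ) (fun q _ => h1 q)
  rw [sum_add_distrib, sum_add_distrib, sum_add_distrib, sum_add_distrib, ← card_filter,
    ← card_filter, ← card_filter, ← card_filter, ← card_filter, card_fst, card_fst, card_snd,
    card_snd, sum_ite_eq, if_pos (mem_univ _)] at h2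
  have h3 := p.1.1.2
  have h4 := p.1.2.2
  omega

/-- Equal numbers are balanced, if there are at least three indices. -/
lemma balanced_of_equal {n : ℕ} (hn : 3 ≤ n) (ν : Pair n → ℕ) (m : ℕ) (hm : 1 ≤ m)
    (h : ∀ p, ν p = m) : Balanced ν := by
  classical
  refine ⟨fun p q => if Meet p q then (m : ℝ) / (2 * (n - 2) : ℕ) else 0, ?_, ?_, ?_, ?_⟩
  · intro p q
    have : Meet p q ↔ Meet q p := by
      unfold Meet
      constructor
      · rintro ⟨h1, h2⟩
        exact ⟨h1.symm, by tauto⟩
      · rintro ⟨h1, h2⟩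
        exact ⟨h1.symm, by tauto⟩
    simp only [this]
  · intro p q hpq
    have h1 : 0 < 2 * (n - 2) := by omega
    have h2 : (0 : ℝ) < (2 * (n - 2) : ℕ) := by exact_mod_cast h1
    have h3 : (0 : ℝ) < m := by exact_mod_cast hm
    simp only [hpq, if_true]
    positivity
  · intro p q hpq
    simp only [hpq, if_false]
  · intro p
    have h1 : 0 < 2 * (n - 2) := by omega
    have h2 : (0 : ℝ) < (2 * (n - 2) : ℕ) := by exact_mod_cast h1
    rw [← sum_filter, sum_const, card_meet p, nsmul_eq_mul, h p]
    field_simp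

/-- **Theorem.** Let `g ≥ 1`. Equal positive numbers `ν p`, `p` the pairs of indices from `0` to
`2 g`, are balanced. Let `u` be an admissible family of `2 g + 1` polynomials with integer
coefficients. For every integer `t` for which the numbers `u i (t)` are different, and every integer
`e ≠ 0`, the 2-Selmer group `Sel2 (twist e (member u t))` of the quadratic twist by `e` of the
Jacobian `J_t` of `y² = ∏ (x - u i (t))` is finite and contains the (nonempty) image
`MW (twist e (member u t))` of the rational points modulo `2`. Let `G` be a family of `r ≥ 0`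
polynomials that is independent of `u`, and let `D_0, ..., D_s` be polynomials composed of the `G l`;
they do not vanish at the integers `t` for which all the `|G l (t)|` are prime. Let `selmer` and
`mordellWeil` be the products over all subsets `T` of `{1, ..., s}` of the `# Sel2` and of the `# MW`
of the twists of `J_t` by `D_0(t) ∏_(i ∈ T) D_i(t)`. There is a set `Z` of integers with the
following properties. If `t ∉ Z` the numbers `u i (t)` are different. For all `L` and `ε > 0` there
is `M0` such that at most `ε * M / (log M) ^ r` of the integers `t` of `(N, N + M]` for which all the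
`|G l (t)|` are prime are elements of `Z`, for all `M ≥ M0` and all `N`, `|N| ≤ M ^ L`. For all `k`
and `L` there is `C` such that the sum of `selmer ^ k` over the integers `t ∉ Z` of `(N, N + M]` for
which all the `|G l (t)|` are prime is at most `C * M / (log M) ^ r`, for all `M ≥ 2` and all `N`,
`|N| ≤ M ^ L`. For every real number `A ≥ 0` and every `L` there is `C` such that for all `n`, all
`M ≥ 2` and all `N`, `|N| ≤ M ^ L`, the number of these `t ∉ Z` with `selmer ≥ 2 ^ n` is at most
`C * M / (A ^ n * (log M) ^ r)`; the same holds for `mordellWeil ≥ 2 ^ n` and for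
`selmer / mordellWeil ≥ 2 ^ n`, where the quotient is the product of the orders of the groups
`Ш(J')[2]`, `J'` the twists of `J_t`. -/
theorem result (g : ℕ) (hg : 1 ≤ g) :
    (∀ (ν : Pair (2 * g + 1) → ℕ) (m : ℕ), 1 ≤ m → (∀ p, ν p = m) → Balanced ν) ∧
    ∀ u : Fin (2 * g + 1) → ℤ[X], Admissible u →
    (∀ t e : ℤ, Function.Injective (member u t) → e ≠ 0 →
      (Sel2 (twist e (member u t))).Finite ∧
      MW (twist e (member u t)) ⊆ Sel2 (twist e (member u t)) ∧
      (MW (twist e (member u t))).Nonempty) ∧
    ∀ (r s : ℕ) (G : Fin r → ℤ[X]) (D0 : ℤ[X]) (D : Fin s → ℤ[X]), Independent u G →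
      Composed G D0 → (∀ i, Composed G (D i)) →
      (∀ t : ℤ, (∀ l, ((G l).eval t).natAbs.Prime) → D0.eval t ≠ 0 ∧ ∀ i, (D i).eval t ≠ 0) ∧
      ∃ Z : Set ℤ, (∀ t, t ∉ Z → Function.Injective (member u t)) ∧
      (∀ (L : ℕ) (ε : ℝ), 0 < ε → ∃ M0 : ℕ, ∀ (N : ℤ) (M : ℕ), M0 ≤ M → |N| ≤ (M : ℤ) ^ L →
        ((arguments G N M (fun t => t ∈ Z)).card : ℝ) ≤ ε * (M / (Real.log M) ^ r)) ∧
      (∀ k L : ℕ, ∃ C : ℝ, ∀ (N : ℤ) (M : ℕ), 2 ≤ M → |N| ≤ (M : ℤ) ^ L →
        ∑ t ∈ arguments G N M (fun t => t ∉ Z), (selmer u D0 D t : ℝ) ^ k ≤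
          C * (M / (Real.log M) ^ r)) ∧
      ∀ (A : ℝ) (L : ℕ), 0 ≤ A → ∃ C : ℝ, ∀ (n : ℕ) (N : ℤ) (M : ℕ), 2 ≤ M →
        |N| ≤ (M : ℤ) ^ L →
        A ^ n * ((arguments G N M (fun t => t ∉ Z ∧ 2 ^ n ≤ selmer u D0 D t)).card : ℝ) ≤
          C * (M / (Real.log M) ^ r) ∧
        A ^ n * ((arguments G N M (fun t => t ∉ Z ∧ 2 ^ n ≤ mordellWeil u D0 D t)).card : ℝ) ≤
          C * (M / (Real.log M) ^ r) ∧
        A ^ n * ((arguments G N M (fun t => t ∉ Z ∧
          2 ^ n * mordellWeil u D0 D t ≤ selmer u D0 D t)).card : ℝ) ≤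
          C * (M / (Real.log M) ^ r) := by
  classical
  refine ⟨fun ν m hm h => balanced_of_equal (by omega) ν m hm h, fun u hu => ?_⟩
  have hodd : Odd (2 * g + 1) := ⟨g, rfl⟩
  have hfin : ∀ t e : ℤ, Function.Injective (member u t) → e ≠ 0 →
      (Sel2 (twist e (member u t))).Finite ∧
      MW (twist e (member u t)) ⊆ Sel2 (twist e (member u t)) ∧
      (MW (twist e (member u t))).Nonempty := by
    intro t e ht he
    have hinj : Function.Injective (twist e (member u t)) := by
      intro i j hij
      exact ht (mul_left_cancel₀ he hij)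
    refine ⟨Pool.Agent.TH344.JG.seljf hodd hinj, ?_, ?_⟩
    · rintro e ⟨h1, h2⟩
      exact ⟨h1, Pool.Agent.TH344.JG.LocJ_map (algebraMap ℚ ℝ) h2, fun p _ =>
        Pool.Agent.TH344.JG.LocJ_map (algebraMap ℚ ℚ_[p]) h2⟩
    · exact ⟨fun _ => 1, fun _ => squarefree_one, Pool.Agent.TH344.JG.LocJ_one ℚ _⟩
  refine ⟨hfin, fun r s G D0 D hG hD0 hD => ?_⟩
  have hval : ∀ t : ℤ, (∀ l, ((G l).eval t).natAbs.Prime) →
      D0.eval t ≠ 0 ∧ ∀ i, (D i).eval t ≠ 0 := by
    intro t ht
    refine ⟨?_, fun i => ?_⟩
    · obtain ⟨R0, hR0⟩ := Pool.Agent.TH344.PH.Comp.eval (G := G) hD0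
      exact (hR0 t ht).1
    · obtain ⟨R0, hR0⟩ := Pool.Agent.TH344.PH.Comp.eval (G := G) (hD i)
      exact (hR0 t ht).1
  refine ⟨hval, ?_⟩
  have hGen : Pool.Agent.TH344.PJ.Gen u := ⟨hu.squarefree, hu.coprime⟩
  have hpos : ∀ c : Pool.Agent.TH344.JG.PR (2 * g + 1),
      Pool.Agent.TH344.PJ.nf (u c.1.1 - u c.1.2) ≠ 0 := by
    intro c h0
    unfold Pool.Agent.TH344.PJ.nf at h0
    have h1 := hu.nonconstant _ _ c.2
    have h2 : (overQ (u c.1.1 - u c.1.2)).natDegree = (u c.1.1 - u c.1.2).natDegree :=
      natDegree_map_eq_of_injective (RingHom.injective_int (Int.castRingHom ℚ)) _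
    have h3 : overQ (u c.1.1 - u c.1.2) ≠ 0 := by
      intro h
      rw [h, natDegree_zero] at h2
      omega
    have h4 : ¬ IsUnit (overQ (u c.1.1 - u c.1.2)) := by
      intro h
      have := natDegree_eq_zero_of_isUnit h
      omega
    rw [Multiset.card_eq_zero] at h0
    have h5 := UniqueFactorizationMonoid.prod_normalizedFactors h3
    have h6 : UniqueFactorizationMonoid.normalizedFactors (overQ (u c.1.1 - u c.1.2)) = 0 := h0
    rw [h6, Multiset.prod_zero] at h5
    exact h4 (h5.isUnit isUnit_one)
  obtain ⟨Z, hZ1, hZ2, hZ3⟩ := Pool.Agent.TH344.PH.gen_fieldsH g hg u hGen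
    hpos (bal_of hu.balanced) ⟨hG.irreducible, hG.nonconstant, hG.different⟩ hG.coprime
    D0 D hD0 hD
  have hmom : ∀ k L : ℕ, ∃ C : ℝ, ∀ (N : ℤ) (M : ℕ), 2 ≤ M → |N| ≤ (M : ℤ) ^ L →
      ∑ t ∈ arguments G N M (fun t => t ∉ Z), (selmer u D0 D t : ℝ) ^ k ≤
        C * (M / (Real.log M) ^ r) := by
    intro k L
    obtain ⟨C, hC⟩ := hZ3 k L
    refine ⟨C, fun N M hM hN => ?_⟩
    refine le_trans (le_of_eq ?_) (hC N M hM hN)
    have h1 : arguments G N M (fun t => t ∉ Z) = (Ioc N (N + (M : ℤ))).filter
        (fun t => Pool.Agent.TH841.PT.AllPr G t ∧ t ∉ Z) := by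
      ext t
      rw [mem_arguments, mem_filter]
      rfl
    rw [h1]
    apply sum_congr rfl
    intro t _
    unfold selmer
    rw [Nat.cast_prod]
    rfl
  refine ⟨Z, hZ1, fun L ε hε => ?_, hmom, fun A L hA => ?_⟩
  · obtain ⟨M0, hM0⟩ := hZ2 L ε hε
    refine ⟨M0, fun N M hM hN => ?_⟩
    refine le_trans (le_of_eq ?_) (hM0 N M hM hN)
    apply congrArg
    apply congrArg
    ext t
    rw [mem_arguments, mem_filter]
    rfl
  obtain ⟨k, hk⟩ := pow_unbounded_of_one_lt A (one_lt_two : (1 : ℝ) < 2)
  obtain ⟨C, hC⟩ := hmom k L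
  refine ⟨C, fun n N M hM hN => ?_⟩
  have h0 := hC N M hM hN
  have key : ∀ P : ℤ → Prop, (∀ t, (∀ l, ((G l).eval t).natAbs.Prime) →
      Function.Injective (member u t) → P t → 2 ^ n ≤ selmer u D0 D t) →
      A ^ n * ((arguments G N M (fun t => t ∉ Z ∧ P t)).card : ℝ) ≤
        C * (M / (Real.log M) ^ r) := by
    intro P hP
    have h1 := markov (P := P) (m := n) (fun t _ => Nat.cast_nonneg _) h0 (fun t ht h2 => by
      have ht' := (mem_arguments.1 ht).2
      exact_mod_cast hP t ht'.1 (hZ1 t ht'.2) h2)
    have h2 : (arguments G N M (fun t => t ∉ Z)).filter P =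
        arguments G N M (fun t => t ∉ Z ∧ P t) := by
      ext t
      rw [mem_filter, mem_arguments, mem_arguments]
      tauto
    rw [h2] at h1
    refine le_trans (mul_le_mul_of_nonneg_right ?_ (Nat.cast_nonneg _)) h1
    exact pow_le_pow_left₀ hA hk.le n
  have hne : ∀ t : ℤ, (∀ l, ((G l).eval t).natAbs.Prime) → ∀ T : Finset (Fin s),
      scalar D0 D T t ≠ 0 := by
    intro t ht T
    exact mul_ne_zero (hval t ht).1 (prod_ne_zero_iff.2 fun i _ => (hval t ht).2 i)
  refine ⟨key _ fun t _ _ h => h, key _ fun t hp ht h => ?_, key _ fun t hp ht h => ?_⟩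
  · refine h.trans ?_
    unfold mordellWeil selmer
    apply Finset.prod_le_prod'
    intro T _
    obtain ⟨h4, h5, -⟩ := hfin t _ ht (hne t hp T)
    exact Set.ncard_le_ncard h5 h4
  · refine le_trans (Nat.le_mul_of_pos_right _ ?_) h
    unfold mordellWeil
    apply Finset.prod_pos
    intro T _
    obtain ⟨h4, h5, h6⟩ := hfin t _ ht (hne t hp T)
    exact (Set.ncard_pos (h4.subset h5)).2 h6

end Pool.Agent.Results.MP_1ad228_nt.TorsorsUnderJacobianPencils
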